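import Pool.Agent.Run7.h834.GM.Main
import Pool.Agent.Run7.h834.GM.P1
import Pool.Agent.Run7.h834.GM.ONE
import Pool.Agent.Run7.h834.GM.MAD
import Pool.Agent.Run7.h983.GM.COPY
import Pool.Agent.Run7.h136.GM.QUO
import Pool.Agent.Run7.h136.GM.SUMF
import Pool.Agent.Run7.h404.GM.TOT
import Pool.Agent.Run7.h404.GM.UNI
import Pool.Agent.Run7.h682.GM.FEK
import Pool.Agent.Run7.h682.GM.LIM
import Pool.Agent.Run7.h860.GM.CLI
import Pool.Agent.Run7.h860.GM.TWN

/-!
# The normalised edge-count gap converges for families of connected excluded minors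
-/

set_option autoImplicit false

open Filter Topology Run7.h834.GM

/-- For every nonempty family `F` of connected graphs with at least one edge, the maximal and the
minimal number of edges of an edge-maximal `F`-minor-free graph on `n` vertices, divided by `n`,
both converge, hence so does `gap F n / n`. -/
theorem Pool.Agent.Results.MP_9d78a0_co.ConnectedFamilies.result (F : Set Gr) (hF : Good F) :
    ∃ Lp Lm : ℝ, Tendsto (fun n : ℕ => (Mplus F n : ℝ) / n) atTop (𝓝 Lp) ∧
      Tendsto (fun n : ℕ => (Mminus F n : ℝ) / n) atTop (𝓝 Lm) ∧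
      Tendsto (fun n : ℕ => gap F n / n) atTop (𝓝 (Lp - Lm)) :=
  Run7.h834.GM.main t_MAD t_CLQ t_EXT t_TRF Run7.h983.GM.t_COPY Run7.h136.GM.t_SUMF
    (Run7.h404.GM.t_TOT t_SAME t_DIFF Run7.h860.GM.TWN.t_TWN Run7.h860.GM.t_CLI Run7.h136.GM.t_QUO)
    Run7.h404.GM.t_UNI (t_ONE t_EXT t_TRF) Run7.h682.GM.t_LIM Run7.h682.GM.t_FEK F hF
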